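import Pool.Agent.W292.RG.Stm

/-! Subtask RG-M2. -/

set_option autoImplicit false

namespace Pool.Agent.W883.RG

open Finset H331HC Pool.Agent.Helper879.ECD Pool.Agent.W292.RG

theorem bij {V : Type} [DecidableEq V] (U Y : Finset V) (h : U.card = Y.card) :
    ∃ φ ψ : V → V, (∀ x ∈ U, φ x ∈ Y ∧ ψ (φ x) = x) ∧ (∀ y ∈ Y, ψ y ∈ U ∧ φ (ψ y) = y) := by
  let e := Finset.equivOfCardEq h
  refine ⟨fun x => if hx : x ∈ U then (e ⟨x, hx⟩ : V) else x,
    fun y => if hy : y ∈ Y then (e.symm ⟨y, hy⟩ : V) else y, ?_, ?_⟩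
  · intro x hx
    have h1 : (e ⟨x, hx⟩ : V) ∈ Y := (e ⟨x, hx⟩).2
    refine ⟨by simp only [hx, dite_true]; exact h1, ?_⟩
    simp only [hx, dite_true, h1, Subtype.coe_eta, Equiv.symm_apply_apply]
  · intro y hy
    have h1 : (e.symm ⟨y, hy⟩ : V) ∈ U := (e.symm ⟨y, hy⟩).2
    refine ⟨by simp only [hy, dite_true]; exact h1, ?_⟩
    simp only [hy, dite_true, h1, Subtype.coe_eta, Equiv.apply_symm_apply]

theorem M2 : St_P → St_M0 → St_SEL → St_M2 := by
  classical
  intro hP hM0 hSEL V _ _ G N₁ X Y D r hr hrD hDr hnd hN hd1 hd2 hd3 hX hNXY hYe hYN k hk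
  -- the set S
  obtain ⟨S, hSN, hSc⟩ : ∃ S ⊆ N₁, S.card = N₁.card % 2 :=
    Finset.exists_subset_card_eq (Nat.mod_le _ _)
  set W := N₁ \ S with hW
  have hWc : W.card + S.card = N₁.card := by
    rw [hW, Finset.card_sdiff_add_card_eq_card hSN]
  have hS1 : ∀ s ∈ S, ∀ t ∈ S, s = t := by
    have : S.card ≤ 1 := by omega
    exact fun s hs t ht => Finset.card_le_one.1 this s hs t ht
  have hWN : W ⊆ N₁ := Finset.sdiff_subset
  have hWe : Even W.card := by
    rw [Nat.even_iff]
    omega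
  have hYW : Y.card ≤ W.card := by
    rw [Nat.even_iff] at hYe
    omega
  have hD1 : 1 ≤ D := by nlinarith
  have hDrD : D ≤ D * r := Nat.le_mul_of_pos_right _ hr
  let P : V → V → Prop := fun x y => ∀ s ∈ S, ¬ (Gᶜ.Adj x s ∧ Gᶜ.Adj y s)
  obtain ⟨f, hf1, -, hf3, hf4⟩ := hP V G W D r D P hnd hrD hDr hWe
    (fun x y h s hs hh => h s hs ⟨hh.2, hh.1⟩)
    (by
      intro x _
      rcases S.eq_empty_or_nonempty with hS0 | ⟨s, hs⟩
      · have : W.filter (fun y => ¬ P x y) = ∅ := by
          rw [Finset.filter_eq_empty_iff]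
          intro y _ h
          apply h
          intro s hs
          rw [hS0] at hs
          simp at hs
        rw [this]
        simp
      · refine le_trans ?_ (hnd s)
        unfold ndeg
        rw [← Set.ncard_coe_finset]
        refine Set.ncard_le_ncard ?_ (Set.toFinite _)
        intro y hy
        simp only [coe_filter, Set.mem_ofPred_eq] at hy
        obtain ⟨-, h2⟩ := hy
        by_contra h3
        apply h2
        intro t ht hh
        rw [hS1 t ht s hs] at hh
        exact h3 hh.2.symm)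
    (by
      have e1 : D * (r + 1) = D * r + D := by ring
      rw [e1]
      omega)
  obtain ⟨P₀, hP1, hP2, hP3⟩ := hSEL V W f
    (fun x hx => ⟨(hf3 x hx).1, fun h => (hf3 x hx).2.1 h.symm, hf1 x⟩)
    (W.card - Y.card) (by
      rw [Nat.even_iff] at *
      omega) (Nat.sub_le _ _)
  set U := W \ P₀ with hU
  have hUc : U.card = Y.card := by
    have := Finset.card_sdiff_add_card_eq_card hP1
    rw [← hU] at this
    omega
  obtain ⟨φ, ψ, hφ, hψ⟩ := bij U Y hUc
  have hUW : U ⊆ W := Finset.sdiff_subset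
  have hYN1 : ∀ y ∈ Y, y ∉ N₁ := fun y hy h => (Finset.disjoint_left.1 hd2 h) hy
  let g : V → V := fun x => if x ∈ P₀ then f x else if x ∈ U then φ x else ψ x
  have gP : ∀ x ∈ P₀, g x = f x := fun x hx => by simp [g, hx]
  have gU : ∀ x ∈ U, g x = φ x := fun x hx => by
    have : x ∉ P₀ := (Finset.mem_sdiff.1 hx).2
    simp [g, hx, this]
  have gY : ∀ x ∈ Y, g x = ψ x := fun x hx => by
    have h1 : x ∉ P₀ := fun h => hYN1 x hx (hWN (hP1 h))
    have h2 : x ∉ U := fun h => hYN1 x hx (hWN (hUW h))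
    simp [g, h1, h2]
  -- the three types
  have typ : ∀ x ∈ W ∪ Y, (x ∈ P₀ ∧ g x = f x ∧ g x ∈ P₀) ∨ (x ∈ U ∧ g x ∈ Y) ∨
      (x ∈ Y ∧ g x ∈ U) := by
    intro x hx
    rcases Finset.mem_union.1 hx with h | h
    · by_cases h1 : x ∈ P₀
      · left
        refine ⟨h1, gP x h1, ?_⟩
        rw [gP x h1]
        exact hP3 x h1
      · right; left
        have h2 : x ∈ U := Finset.mem_sdiff.2 ⟨h, h1⟩
        refine ⟨h2, ?_⟩
        rw [gU x h2]
        exact (hφ x h2).1
    · right; right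
      refine ⟨h, ?_⟩
      rw [gY x h]
      exact (hψ x h).1
  have hPN : ∀ x ∈ P₀, x ∈ N₁ := fun x hx => hWN (hP1 hx)
  have hUN : ∀ x ∈ U, x ∈ N₁ := fun x hx => hWN (hUW hx)
  have typN : ∀ x ∈ W ∪ Y, x ∈ N₁ ∨ g x ∈ N₁ := by
    intro x hx
    rcases typ x hx with h | h | h
    · exact Or.inl (hPN x h.1)
    · exact Or.inl (hUN x h.1)
    · exact Or.inr (hUN _ h.2)
  have nadj : ∀ a b, Gᶜ.Adj a b → ¬ G.Adj a b := fun a b h => by
    rw [SimpleGraph.compl_adj] at h
    exact h.2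
  have key : ∀ x y, (x ∈ Y ∨ g x ∈ Y) → (y ∈ N₁ ∨ g y ∈ N₁) → ¬ QQ Gᶜ x (g x) y (g y) := by
    intro x y hx hy hQ
    have hh : ∀ a ∈ Y, ∀ b ∈ N₁, Gᶜ.Adj a b → False := fun a ha b hb hab =>
      nadj _ _ hab.symm (hNXY b hb a (Finset.mem_union_right _ ha))
    rcases hx with hx | hx <;> rcases hy with hy | hy
    · exact hh _ hx _ hy hQ.1
    · exact hh _ hx _ hy hQ.2.1
    · exact hh _ hx _ hy hQ.2.2.1
    · exact hh _ hx _ hy hQ.2.2.2
  refine hM0 V G (S ∪ X) (W ∪ Y) g ?_ ?_ ?_ ?_ ?_ ?_ ?_ k ?_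
  · rw [Finset.disjoint_left]
    intro x hx hx2
    rcases Finset.mem_union.1 hx with h | h <;> rcases Finset.mem_union.1 hx2 with h2 | h2
    · exact (Finset.mem_sdiff.1 h2).2 h
    · exact hYN1 x h2 (hSN h)
    · exact (Finset.disjoint_left.1 hd1 (hWN h2)) h
    · exact (Finset.disjoint_left.1 hd3 h) h2
  · intro x hx
    rcases typ x hx with h | h | h
    · exact Finset.mem_union_left _ (hP1 h.2.2)
    · exact Finset.mem_union_right _ h.2
    · exact Finset.mem_union_left _ (hUW h.2)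
  · intro x hx
    rcases typ x hx with h | h | h
    · rw [gP _ h.2.2, h.2.1, hf1]
    · rw [gY _ h.2, gU x h.1]
      exact (hφ x h.1).2
    · rw [gU _ h.2, gY x h.1]
      exact (hψ x h.1).2
  · intro x hx
    rcases typ x hx with h | h | h
    · rw [h.2.1]
      exact (hf3 x (hP1 h.1)).2.2.1
    · exact hNXY x (hUN x h.1) _ (Finset.mem_union_right _ h.2)
    · exact (hNXY _ (hUN _ h.2) x (Finset.mem_union_right _ h.1)).symm
  · intro s hs t ht hst
    rcases Finset.mem_union.1 hs with h | h <;> rcases Finset.mem_union.1 ht with h2 | h2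
    · exact absurd (hS1 s h t h2) hst
    · exact hNXY s (hSN h) t (Finset.mem_union_left _ h2)
    · exact (hNXY t (hSN h2) s (Finset.mem_union_left _ h)).symm
    · exact hX s h t h2 hst
  · intro x hx s hs ⟨c1, c2⟩
    rcases Finset.mem_union.1 hs with h | h
    · rcases typ x hx with h' | h' | h'
      · rw [h'.2.1] at c2
        exact (hf3 x (hP1 h'.1)).2.2.2 s h ⟨c1, c2⟩
      · exact nadj _ _ c2.symm (hNXY s (hSN h) _ (Finset.mem_union_right _ h'.2))
      · exact nadj _ _ c1.symm (hNXY s (hSN h) _ (Finset.mem_union_right _ h'.1))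
    · rcases typN x hx with h' | h'
      · exact nadj _ _ c1 (hNXY x h' s (Finset.mem_union_left _ h))
      · exact nadj _ _ c2 (hNXY _ h' s (Finset.mem_union_left _ h))
  · intro x hx y hy
    rcases typ x hx with h | h | h
    · rcases typ y hy with h2 | h2 | h2
      · rw [h.2.1, h2.2.1]
        exact hf4 x (hP1 h.1) y (hP1 h2.1)
      · intro hQ
        exact key y x (Or.inr h2.2) (typN x hx) hQ.symm
      · intro hQ
        exact key y x (Or.inl h2.1) (typN x hx) hQ.symm
    · exact key x y (Or.inr h.2) (typN y hy)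
    · exact key x y (Or.inl h.1) (typN y hy)
  · have c1 : (S ∪ X).card = S.card + X.card := by
      rw [Finset.card_union_of_disjoint]
      exact Finset.disjoint_of_subset_left hSN hd1
    have c2 : (W ∪ Y).card = W.card + Y.card := by
      rw [Finset.card_union_of_disjoint]
      exact Finset.disjoint_of_subset_left hWN hd2
    rw [c1, c2]
    omega

end Pool.Agent.W883.RG
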